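import Pool.Agent.Helper805.Nuc.Free
set_option autoImplicit false

/-!
A commutative alternative algebra of characteristic three (of dimension `47` up to a direct summand
with zero multiplication) with basis vectors indexed by subsets of a set with six elements.
-/

namespace Pool.Agent.K1H3.AltTor
open Pool.Agent.Helper805.Nuc.Tens

/-- the structure constants (two bits each) -/
def T : ℕ := 0x800000000000000000000000000000000000000000000000000000000000000500000000000000000000000000000010000000000000000000000000000000000000000000000000000000000000020100000000000000000000000000000124800000000000000000000000000020000000000000000000000000000000200040000000000000000000000000020002000000000000000000000000000000000000000000000000000000000000202000000000000000000000000000608020800000000000000000000000000000000000000000000000000000000820aa0a0000000000000000000000000000000000000000000000000000000050000000000000000000000000000000000000000000000000000000000000081000000200000000000000000000001020000000000000000000000000000020800000108000000000000000000001001000000100000000000000000000000000000000000000000000000000001000100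00000000000000000000000000000000000000000000000000000000200002000000200000000000000000001100480022008800000000000000000000000000000000000000000000000008000505010a00000000000000000000001121000012110000000000000000005041144101144114000000000000000100000000000000000000000000000001000000000000000400000000000000200000000000000010000000000000000000000000000000000000000000000001000000000000020000000000000009040000000000000208000000000000000000000000000000000000000000004105000000000000a0a00000000000000000000000000000000000000000000400090000000000090000000000000000001100000000001200000000000000600014000000000018002800000000020001010000000001010000000000000000000000000000000000000000000010200210000000000110012000000000118448110000000044111144000000020000000000000001000000000000000000000000000000000000000000000010000000000000000100000020000000220000001100000044000000880000000000000000000000000000000000000800000002050000050500000000000000220000002100002200000011000000a082000002280000184100004114000000020000000100020000000100000009000200000004000200010004000800000000000000000000000000000000004200a00010000500a000050005005001010002000002000002000102000100010408020204080104020208080101042002102000200201102002010201201000000000000000000000000000000000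

/-- the structure constant of `e i * e j`, a number `0`, `1` or `2` modulo `3` -/
def c (i j : ℕ) : ℕ := (T >>> (2 * (64 * i + j))) % 4

def chk : Bool :=
  (List.range 64).all fun i => (List.range 64).all fun j => (c i j == c j i) &&
    (if i &&& j = 0 then (List.range 64).all fun k =>
      (c i j * c (i ||| j) k + c j i * c (j ||| i) k + 2 * (c j k * c i (j ||| k)) +
        2 * (c i k * c j (i ||| k))) % 3 == 0
    else c i j == 0)

theorem chk_eq : chk = true := by decide +kernel

theorem c_comm {i j : ℕ} (hi : i < 64) (hj : j < 64) : c i j = c j i := by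
  have h := chk_eq
  unfold chk at h
  rw [List.all_eq_true] at h
  have h1 := h i (List.mem_range.mpr hi)
  rw [List.all_eq_true] at h1
  have h2 := h1 j (List.mem_range.mpr hj)
  rw [Bool.and_eq_true] at h2
  exact eq_of_beq h2.1

theorem c_zero {i j : ℕ} (hi : i < 64) (hj : j < 64) (hij : i &&& j ≠ 0) : c i j = 0 := by
  have h := chk_eq
  unfold chk at h
  rw [List.all_eq_true] at h
  have h1 := h i (List.mem_range.mpr hi)
  rw [List.all_eq_true] at h1
  have h2 := h1 j (List.mem_range.mpr hj)
  rw [Bool.and_eq_true, if_neg hij] at h2
  exact eq_of_beq h2.2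

theorem or_lt {i j : ℕ} (hi : i < 64) (hj : j < 64) : i ||| j < 64 :=
  Nat.or_lt_two_pow (n := 6) hi hj

theorem and_or_ne {i j k : ℕ} (h : i &&& j ≠ 0) : i &&& (j ||| k) ≠ 0 := by
  rw [Nat.and_or_distrib_left]
  intro h0
  exact h (Nat.or_eq_zero_iff.mp h0).1

theorem c_alt {i j k : ℕ} (hi : i < 64) (hj : j < 64) (hk : k < 64) :
    (c i j * c (i ||| j) k + c j i * c (j ||| i) k + 2 * (c j k * c i (j ||| k)) +
        2 * (c i k * c j (i ||| k))) % 3 = 0 := by
  by_cases hij : i &&& j = 0
  · have h := chk_eq
    unfold chk at h
    rw [List.all_eq_true] at h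
    have h1 := h i (List.mem_range.mpr hi)
    rw [List.all_eq_true] at h1
    have h2 := h1 j (List.mem_range.mpr hj)
    rw [Bool.and_eq_true, if_pos hij, List.all_eq_true] at h2
    exact eq_of_beq (h2.2 k (List.mem_range.mpr hk))
  · have hji : j &&& i ≠ 0 := by rwa [Nat.and_comm]
    rw [c_zero hi hj hij, c_zero hj hi hji, c_zero hi (or_lt hj hk) (and_or_ne hij),
      c_zero hj (or_lt hi hk) (and_or_ne hji)]
    simp

/-! ### Algebras given by structure constants -/

section
variable {ι : Type} [Fintype ι] [DecidableEq ι] {K : Type} [CommRing K]

/-- the product on `ι → K` with `e i * e j = γ i j • e (op i j)` -/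
def mulOp (op : ι → ι → ι) (γ : ι → ι → K) (x y : ι → K) : ι → K := fun m =>
  ∑ i, ∑ j, if op i j = m then γ i j * (x i * y j) else 0

variable (op : ι → ι → ι) (γ : ι → ι → K)

theorem mulOp_add_left (x y z : ι → K) : mulOp op γ (x + y) z = mulOp op γ x z + mulOp op γ y z := by
  funext m
  simp only [mulOp, Pi.add_apply, ← Finset.sum_add_distrib]
  refine Finset.sum_congr rfl fun i _ => Finset.sum_congr rfl fun j _ => ?_
  split_ifs <;> ring

theorem mulOp_add_right (x y z : ι → K) : mulOp op γ x (y + z) = mulOp op γ x y + mulOp op γ x z := by
  funext m
  simp only [mulOp, Pi.add_apply, ← Finset.sum_add_distrib]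
  refine Finset.sum_congr rfl fun i _ => Finset.sum_congr rfl fun j _ => ?_
  split_ifs <;> ring

theorem mulOp_smul_left (a : K) (x y : ι → K) : mulOp op γ (a • x) y = a • mulOp op γ x y := by
  funext m
  simp only [mulOp, Pi.smul_apply, smul_eq_mul, Finset.mul_sum]
  refine Finset.sum_congr rfl fun i _ => Finset.sum_congr rfl fun j _ => ?_
  split_ifs <;> ring

theorem mulOp_smul_right (a : K) (x y : ι → K) : mulOp op γ x (a • y) = a • mulOp op γ x y := by
  funext m
  simp only [mulOp, Pi.smul_apply, smul_eq_mul, Finset.mul_sum]
  refine Finset.sum_congr rfl fun i _ => Finset.sum_congr rfl fun j _ => ?_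
  split_ifs <;> ring

theorem mulOp_comm (hop : ∀ i j, op i j = op j i) (hγ : ∀ i j, γ i j = γ j i) (x y : ι → K) :
    mulOp op γ x y = mulOp op γ y x := by
  funext m
  simp only [mulOp]
  rw [Finset.sum_comm]
  refine Finset.sum_congr rfl fun i _ => Finset.sum_congr rfl fun j _ => ?_
  rw [hop j i, hγ j i, mul_comm (x j)]

theorem mulOp_single (i j : ι) (a b : K) :
    mulOp op γ (Pi.single i a) (Pi.single j b) = Pi.single (op i j) (γ i j * (a * b)) := by
  funext m
  simp only [mulOp]
  rw [Finset.sum_eq_single i, Finset.sum_eq_single j]
  · rw [Pi.single_eq_same, Pi.single_eq_same, Pi.single_apply]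
    by_cases h : op i j = m
    · rw [if_pos h, if_pos h.symm]
    · rw [if_neg h, if_neg (Ne.symm h)]
  · intro k _ hk
    rw [Pi.single_eq_of_ne hk]
    simp
  · intro h; exact absurd (Finset.mem_univ _) h
  · intro k _ hk
    refine Finset.sum_eq_zero fun l _ => ?_
    rw [Pi.single_eq_of_ne hk]
    simp
  · intro h; exact absurd (Finset.mem_univ _) h

theorem mulOp_left (x y z : ι → K) (m : ι) : mulOp op γ (mulOp op γ x y) z m =
    ∑ i, ∑ j, ∑ k, if op (op i j) k = m then γ i j * γ (op i j) k * (x i * y j * z k) else 0 := by
  have h1 : ∀ p k, (if op p k = m then γ p k * (mulOp op γ x y p * z k) else 0) =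
      ∑ i, ∑ j, if op i j = p then
        (if op p k = m then γ i j * γ p k * (x i * y j * z k) else 0) else 0 := by
    intro p k
    by_cases h : op p k = m
    · simp only [if_pos h, mulOp, Finset.sum_mul, Finset.mul_sum]
      refine Finset.sum_congr rfl fun i _ => Finset.sum_congr rfl fun j _ => ?_
      split_ifs <;> ring
    · simp only [if_neg h, ite_self, Finset.sum_const_zero]
  have h2 : mulOp op γ (mulOp op γ x y) z m =
      ∑ p, ∑ k, ∑ i, ∑ j, if op i j = p then
        (if op p k = m then γ i j * γ p k * (x i * y j * z k) else 0) else 0 := by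
    show (∑ p, ∑ k, if op p k = m then γ p k * (mulOp op γ x y p * z k) else 0) = _
    exact Finset.sum_congr rfl fun p _ => Finset.sum_congr rfl fun k _ => h1 p k
  rw [h2, Finset.sum_comm]
  have h3 : ∀ k, (∑ p, ∑ i, ∑ j, if op i j = p then
        (if op p k = m then γ i j * γ p k * (x i * y j * z k) else 0) else 0) =
      ∑ i, ∑ j, if op (op i j) k = m then γ i j * γ (op i j) k * (x i * y j * z k) else 0 := by
    intro k
    rw [Finset.sum_comm]
    refine Finset.sum_congr rfl fun i _ => ?_
    rw [Finset.sum_comm]
    refine Finset.sum_congr rfl fun j _ => ?_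
    rw [Finset.sum_ite_eq]
    simp
  rw [Finset.sum_congr rfl fun k _ => h3 k, Finset.sum_comm]
  refine Finset.sum_congr rfl fun i _ => ?_
  rw [Finset.sum_comm]

theorem mulOp_right (x y z : ι → K) (m : ι) : mulOp op γ x (mulOp op γ y z) m =
    ∑ i, ∑ j, ∑ k, if op i (op j k) = m then γ j k * γ i (op j k) * (x i * y j * z k) else 0 := by
  have h1 : ∀ i p, (if op i p = m then γ i p * (x i * mulOp op γ y z p) else 0) =
      ∑ j, ∑ k, if op j k = p then
        (if op i p = m then γ j k * γ i p * (x i * y j * z k) else 0) else 0 := by
    intro i p
    by_cases h : op i p = m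
    · simp only [if_pos h, mulOp, Finset.mul_sum]
      refine Finset.sum_congr rfl fun j _ => Finset.sum_congr rfl fun k _ => ?_
      split_ifs <;> ring
    · simp only [if_neg h, ite_self, Finset.sum_const_zero]
  show (∑ i, ∑ p, if op i p = m then γ i p * (x i * mulOp op γ y z p) else 0) = _
  refine Finset.sum_congr rfl fun i _ => ?_
  rw [Finset.sum_congr rfl fun p _ => h1 i p, Finset.sum_comm]
  refine Finset.sum_congr rfl fun j _ => ?_
  rw [Finset.sum_comm]
  refine Finset.sum_congr rfl fun k _ => ?_
  rw [Finset.sum_ite_eq]
  simp

/-- The left alternative law from its linearisation on the basis, if two is invertible. -/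
theorem mulOp_alt (hassoc : ∀ i j k, op (op i j) k = op i (op j k)) (hop : ∀ i j, op i j = op j i)
    (h2 : ∀ a : K, a + a = 0 → a = 0)
    (hγ : ∀ i j k, γ i j * γ (op i j) k - γ j k * γ i (op j k) +
      (γ j i * γ (op j i) k - γ i k * γ j (op i k)) = 0) (x z : ι → K) :
    mulOp op γ (mulOp op γ x x) z = mulOp op γ x (mulOp op γ x z) := by
  funext m
  rw [mulOp_left, mulOp_right]
  rw [← sub_eq_zero]
  set S := (∑ i, ∑ j, ∑ k, if op (op i j) k = m then γ i j * γ (op i j) k * (x i * x j * z k) else 0) -
    ∑ i, ∑ j, ∑ k, if op i (op j k) = m then γ j k * γ i (op j k) * (x i * x j * z k) else 0 with hS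
  have e1 : S = ∑ i, ∑ j, ∑ k, if op (op i j) k = m then
      (γ i j * γ (op i j) k - γ j k * γ i (op j k)) * (x i * x j * z k) else 0 := by
    rw [hS, ← Finset.sum_sub_distrib]
    refine Finset.sum_congr rfl fun i _ => ?_
    rw [← Finset.sum_sub_distrib]
    refine Finset.sum_congr rfl fun j _ => ?_
    rw [← Finset.sum_sub_distrib]
    refine Finset.sum_congr rfl fun k _ => ?_
    rw [← hassoc i j k]
    split_ifs <;> ring
  have e2 : S = ∑ i, ∑ j, ∑ k, if op (op i j) k = m then
      (γ j i * γ (op j i) k - γ i k * γ j (op i k)) * (x i * x j * z k) else 0 := by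
    rw [e1, Finset.sum_comm]
    refine Finset.sum_congr rfl fun i _ => Finset.sum_congr rfl fun j _ =>
      Finset.sum_congr rfl fun k _ => ?_
    rw [hop j i]
    split_ifs <;> ring
  apply h2
  conv_lhs => rw [e1]
  rw [← e1]
  nth_rewrite 1 [e1]
  rw [e2, ← Finset.sum_add_distrib]
  refine Finset.sum_eq_zero fun i _ => ?_
  rw [← Finset.sum_add_distrib]
  refine Finset.sum_eq_zero fun j _ => ?_
  rw [← Finset.sum_add_distrib]
  refine Finset.sum_eq_zero fun k _ => ?_
  split_ifs
  · rw [← add_mul, hγ, zero_mul]
  · rw [add_zero]

end

end Pool.Agent.K1H3.AltTor
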