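import Pool.Agent.K1H3.AltTor
set_option autoImplicit false

/-! The identity `3 g = 0` in all alternative rings, and an alternative ring with `g ≠ 0`. -/

namespace Pool.Agent.K1H3.AltTor
open Pool.Agent.Helper805.Nuc.Tens

section
variable {A : Type} [NonUnitalNonAssocRing A]

theorem jo_comm (a b : A) : jo a b = jo b a := by unfold jo; rw [add_comm]

theorem jo_add (a b c : A) : jo a (b + c) = jo a b + jo a c := by
  unfold jo; rw [mul_add, add_mul]; abel

theorem jo_neg (a b : A) : jo a (-b) = - jo a b := by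
  unfold jo; rw [mul_neg, neg_mul]; abel

theorem as_add_left (a b x y : A) : as (a + b) x y = as a x y + as b x y := by
  unfold as; simp only [add_mul]; abel

theorem teich (a b c d : A) :
    as (a * b) c d - as a (b * c) d + as a b (c * d) = a * as b c d + as a b c * d := by
  unfold as; simp only [mul_sub, sub_mul]; abel

/-- Kleinfeld's function -/
def kl (a b c d : A) : A := as (a * b) c d - b * as a c d - as b c d * a

variable (hA : IsAlt A)
include hA

theorem p12 (a b c : A) : as a b c = - as b a c := hA.as_left a b c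
theorem p23 (a b c : A) : as a b c = - as a c b := hA.as_right a b c
theorem pc1 (a b c : A) : as a b c = as b c a := by
  rw [p12 hA a b c, p23 hA b a c, neg_neg]
theorem pc2 (a b c : A) : as a b c = as c a b := by
  rw [p23 hA a b c, p12 hA a c b, neg_neg]
theorem p13 (a b c : A) : as a b c = - as c b a := by
  rw [pc1 hA a b c, p12 hA b c a]

theorem kl_rot (a b c d : A) : kl a b c d = - kl d a b c := by
  have h1 := teich a b c d
  have h2 := teich b c d a
  rw [pc1 hA a (b * c) d, pc2 hA a b (c * d)] at h1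
  rw [pc1 hA b (c * d) a, pc2 hA b c (d * a), ← pc1 hA a c d] at h2
  unfold kl
  rw [← pc2 hA b c d, eq_neg_iff_add_eq_zero]
  linear_combination (norm := abel) h1 + h2

theorem kl_last (a b c d : A) : kl a b c d = - kl a b d c := by
  unfold kl
  rw [p23 hA (a * b) c d, p23 hA a c d, p23 hA b c d, mul_neg, neg_mul]
  abel

theorem kl_first (a b c d : A) : kl a b c d = - kl b a c d := by
  rw [kl_rot hA a b c d, kl_rot hA d a b c, neg_neg, kl_last hA c d a b, kl_rot hA c d b a,
    kl_rot hA a c d b, neg_neg]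

/-- the map `(·, y, z)` is a derivation of the Jordan product -/
theorem as_jo (w x y z : A) : as (jo w x) y z = jo w (as x y z) + jo x (as w y z) := by
  have h := kl_first hA w x y z
  unfold kl at h
  have h1 : as (jo w x) y z = as (w * x) y z + as (x * w) y z := by
    unfold jo; exact as_add_left _ _ _ _
  rw [h1]
  unfold jo
  linear_combination (norm := abel) h

/-- linearisation of `(w, y, y ^ 2) = 0` -/
theorem lin3 (w d e f : A) : as w f (jo d e) + as w e (jo d f) + as w d (jo e f) = 0 := by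
  have h : ∀ x y z u : A, as w x (jo y z) = jo y (as z w x) + jo z (as y w x) := by
    intro x y z u
    rw [pc2 hA w x (jo y z), as_jo hA]
  rw [h f d e w, h e d f w, h d e f w]
  rw [p23 hA e w f, p12 hA e f w, neg_neg, p23 hA d w f, p12 hA d f w, neg_neg]
  rw [p23 hA d w e, p12 hA d e w, neg_neg]
  rw [pc1 hA f w e, pc1 hA f w d, pc1 hA e w d]
  rw [show as w e f = - as f e w by rw [p13 hA w e f], show as w d f = - as f d w by
    rw [p13 hA w d f], show as w d e = - as e d w by rw [p13 hA w d e]]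
  simp only [jo_neg]
  abel

/-- linearisation of `(x ^ 2, x ∘ y, z) = x ∘ (x ∘ (x, y, z))` -/
theorem lin_x (a b c y z : A) :
    as (jo b c) (jo a y) z + as (jo a c) (jo b y) z + as (jo a b) (jo c y) z =
      jo a (jo b (as c y z)) + jo a (jo c (as b y z)) + jo b (jo a (as c y z)) +
      jo b (jo c (as a y z)) + jo c (jo a (as b y z)) + jo c (jo b (as a y z)) := by
  have h : ∀ u v w : A, as (jo u v) (jo w y) z =
      jo u (jo w (as v y z)) + jo u (jo y (as v w z)) + (jo v (jo w (as u y z)) +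
        jo v (jo y (as u w z))) := by
    intro u v w
    have h1 : ∀ t : A, as t (jo w y) z = jo w (as t y z) + jo y (as t w z) := by
      intro t
      rw [p12 hA t (jo w y) z, as_jo hA, p12 hA y t z, p12 hA w t z, jo_neg, jo_neg]
      abel
    rw [as_jo hA, h1 v, h1 u, jo_add, jo_add]
  rw [h b c a, h a c b, h a b c]
  rw [p12 hA c a z, p12 hA b a z, p12 hA c b z]
  simp only [jo_neg]
  abel

/-- linearisation of `(x ^ 2, x ∘ y, y ^ 2) = 0` -/
theorem nine (a b c d e f : A) :
    as (jo b c) (jo a d) (jo e f) + as (jo a c) (jo b d) (jo e f) + as (jo a b) (jo c d) (jo e f) +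
    (as (jo b c) (jo a e) (jo d f) + as (jo a c) (jo b e) (jo d f) +
      as (jo a b) (jo c e) (jo d f)) +
    (as (jo b c) (jo a f) (jo d e) + as (jo a c) (jo b f) (jo d e) +
      as (jo a b) (jo c f) (jo d e)) = 0 := by
  rw [lin_x hA a b c d, lin_x hA a b c e, lin_x hA a b c f]
  have h : ∀ u v w : A, jo u (jo v (as w d (jo e f))) + jo u (jo v (as w e (jo d f))) +
      jo u (jo v (as w f (jo d e))) = 0 := by
    intro u v w
    rw [← jo_add, ← jo_add, ← jo_add, ← jo_add]
    have h1 := lin3 hA w d e f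
    have h2 : as w d (jo e f) + as w e (jo d f) + as w f (jo d e) = 0 := by
      rw [← h1]; abel
    rw [h2]
    unfold jo
    simp
  have h1 := h a b c
  have h2 := h a c b
  have h3 := h b a c
  have h4 := h b c a
  have h5 := h c a b
  have h6 := h c b a
  linear_combination (norm := abel) h1 + h2 + h3 + h4 + h5 + h6

omit hA in
/-- the torsion element -/
def tor (a b c d e f : A) : A :=
  as (jo a d) (jo b c) (jo e f) + as (jo a f) (jo b e) (jo c d) - as (jo a b) (jo c e) (jo d f) -
    as (jo a c) (jo b f) (jo d e) - as (jo a e) (jo b d) (jo c f)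

theorem three_tor (a b c d e f : A) : (3 : ℤ) • tor a b c d e f = 0 := by
  have h0 : as (jo b f) (jo a c) (jo d e) = - as (jo a c) (jo b f) (jo d e) := by exact p12 hA _ _ _
  have h1 : as (jo a b) (jo f c) (jo d e) = as (jo a b) (jo c f) (jo d e) := by rw [jo_comm f c]
  have h2 : as (jo b f) (jo a d) (jo c e) = - as (jo a d) (jo b f) (jo c e) := by exact p12 hA _ _ _
  have h3 : as (jo a b) (jo f d) (jo c e) = - as (jo a b) (jo c e) (jo d f) := by rw [jo_comm f d]; exact p23 hA _ _ _
  have h4 : as (jo b f) (jo a e) (jo c d) = - as (jo a e) (jo b f) (jo c d) := by exact p12 hA _ _ _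
  have h5 : as (jo a b) (jo f e) (jo c d) = - as (jo a b) (jo c d) (jo e f) := by rw [jo_comm f e]; exact p23 hA _ _ _
  have L0 := nine hA a b f c d e
  simp only [h0, h1, h2, h3, h4, h5] at L0
  have h6 : as (jo c e) (jo a b) (jo d f) = - as (jo a b) (jo c e) (jo d f) := by exact p12 hA _ _ _
  have h7 : as (jo a e) (jo c b) (jo d f) = as (jo a e) (jo b c) (jo d f) := by rw [jo_comm c b]
  have h8 : as (jo a c) (jo e b) (jo d f) = as (jo a c) (jo b e) (jo d f) := by rw [jo_comm e b]
  have h9 : as (jo c e) (jo a d) (jo b f) = as (jo a d) (jo b f) (jo c e) := by exact pc1 hA _ _ _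
  have h10 : as (jo a e) (jo c d) (jo b f) = - as (jo a e) (jo b f) (jo c d) := by exact p23 hA _ _ _
  have h11 : as (jo a c) (jo e d) (jo b f) = - as (jo a c) (jo b f) (jo d e) := by rw [jo_comm e d]; exact p23 hA _ _ _
  have h12 : as (jo c e) (jo a f) (jo b d) = as (jo a f) (jo b d) (jo c e) := by exact pc1 hA _ _ _
  have h13 : as (jo a e) (jo c f) (jo b d) = - as (jo a e) (jo b d) (jo c f) := by exact p23 hA _ _ _
  have h14 : as (jo a c) (jo e f) (jo b d) = - as (jo a c) (jo b d) (jo e f) := by exact p23 hA _ _ _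
  have L1 := nine hA a c e b d f
  simp only [h6, h7, h8, h9, h10, h11, h12, h13, h14] at L1
  have h15 : as (jo d e) (jo a b) (jo c f) = as (jo a b) (jo c f) (jo d e) := by exact pc1 hA _ _ _
  have h16 : as (jo a e) (jo d b) (jo c f) = as (jo a e) (jo b d) (jo c f) := by rw [jo_comm d b]
  have h17 : as (jo a d) (jo e b) (jo c f) = as (jo a d) (jo b e) (jo c f) := by rw [jo_comm e b]
  have h18 : as (jo d e) (jo a c) (jo b f) = as (jo a c) (jo b f) (jo d e) := by exact pc1 hA _ _ _
  have h19 : as (jo a e) (jo d c) (jo b f) = - as (jo a e) (jo b f) (jo c d) := by rw [jo_comm d c]; exact p23 hA _ _ _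
  have h20 : as (jo a d) (jo e c) (jo b f) = - as (jo a d) (jo b f) (jo c e) := by rw [jo_comm e c]; exact p23 hA _ _ _
  have h21 : as (jo d e) (jo a f) (jo b c) = as (jo a f) (jo b c) (jo d e) := by exact pc1 hA _ _ _
  have h22 : as (jo a e) (jo d f) (jo b c) = - as (jo a e) (jo b c) (jo d f) := by exact p23 hA _ _ _
  have h23 : as (jo a d) (jo e f) (jo b c) = - as (jo a d) (jo b c) (jo e f) := by exact p23 hA _ _ _
  have L2 := nine hA a d e b c f
  simp only [h15, h16, h17, h18, h19, h20, h21, h22, h23] at L2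
  have h24 : as (jo d f) (jo a b) (jo c e) = as (jo a b) (jo c e) (jo d f) := by exact pc1 hA _ _ _
  have h25 : as (jo a f) (jo d b) (jo c e) = as (jo a f) (jo b d) (jo c e) := by rw [jo_comm d b]
  have h26 : as (jo a d) (jo f b) (jo c e) = as (jo a d) (jo b f) (jo c e) := by rw [jo_comm f b]
  have h27 : as (jo d f) (jo a c) (jo b e) = as (jo a c) (jo b e) (jo d f) := by exact pc1 hA _ _ _
  have h28 : as (jo a f) (jo d c) (jo b e) = - as (jo a f) (jo b e) (jo c d) := by rw [jo_comm d c]; exact p23 hA _ _ _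
  have h29 : as (jo a d) (jo f c) (jo b e) = - as (jo a d) (jo b e) (jo c f) := by rw [jo_comm f c]; exact p23 hA _ _ _
  have h30 : as (jo d f) (jo a e) (jo b c) = as (jo a e) (jo b c) (jo d f) := by exact pc1 hA _ _ _
  have h31 : as (jo a f) (jo d e) (jo b c) = - as (jo a f) (jo b c) (jo d e) := by exact p23 hA _ _ _
  have h32 : as (jo a d) (jo f e) (jo b c) = - as (jo a d) (jo b c) (jo e f) := by rw [jo_comm f e]; exact p23 hA _ _ _
  have L3 := nine hA a d f b c e
  simp only [h24, h25, h26, h27, h28, h29, h30, h31, h32] at L3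
  have h33 : as (jo e f) (jo a b) (jo c d) = as (jo a b) (jo c d) (jo e f) := by exact pc1 hA _ _ _
  have h34 : as (jo a f) (jo e b) (jo c d) = as (jo a f) (jo b e) (jo c d) := by rw [jo_comm e b]
  have h35 : as (jo a e) (jo f b) (jo c d) = as (jo a e) (jo b f) (jo c d) := by rw [jo_comm f b]
  have h36 : as (jo e f) (jo a c) (jo b d) = as (jo a c) (jo b d) (jo e f) := by exact pc1 hA _ _ _
  have h37 : as (jo a f) (jo e c) (jo b d) = - as (jo a f) (jo b d) (jo c e) := by rw [jo_comm e c]; exact p23 hA _ _ _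
  have h38 : as (jo a e) (jo f c) (jo b d) = - as (jo a e) (jo b d) (jo c f) := by rw [jo_comm f c]; exact p23 hA _ _ _
  have h39 : as (jo e f) (jo a d) (jo b c) = as (jo a d) (jo b c) (jo e f) := by exact pc1 hA _ _ _
  have h40 : as (jo a f) (jo e d) (jo b c) = - as (jo a f) (jo b c) (jo d e) := by rw [jo_comm e d]; exact p23 hA _ _ _
  have h41 : as (jo a e) (jo f d) (jo b c) = - as (jo a e) (jo b c) (jo d f) := by rw [jo_comm f d]; exact p23 hA _ _ _
  have L4 := nine hA a e f b c d
  simp only [h33, h34, h35, h36, h37, h38, h39, h40, h41] at L4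

  unfold tor
  linear_combination (norm := abel) L0 + L1 - L2 - L3 + L4

end

/-! ### The algebra with `tor ≠ 0` -/

section
variable (K : Type) [CommRing K]

/-- union of bit masks -/
def opF (i j : Fin 64) : Fin 64 := ⟨i ||| j, or_lt i.2 j.2⟩

/-- the algebra with basis indexed by the bit masks below 64 -/
def B : Type := Fin 64 → K

instance : AddCommGroup (B K) := inferInstanceAs (AddCommGroup (Fin 64 → K))
instance : Module K (B K) := inferInstanceAs (Module K (Fin 64 → K))

/-- the structure constants in `K` -/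
def gam (i j : Fin 64) : K := (c i j : K)

instance : Mul (B K) := ⟨fun x y => mulOp opF (gam K) x y⟩

variable {K}

theorem B_mul_def (x y : B K) : x * y = mulOp opF (gam K) x y := rfl

instance : NonUnitalNonAssocRing (B K) where
  left_distrib x y z := mulOp_add_right _ _ x y z
  right_distrib x y z := mulOp_add_left _ _ x y z
  zero_mul x := by
    have := mulOp_smul_left opF (gam K) 0 (0 : Fin 64 → K) x
    rw [zero_smul, zero_smul] at this
    exact this
  mul_zero x := by
    have := mulOp_smul_right opF (gam K) 0 x (0 : Fin 64 → K)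
    rw [zero_smul, zero_smul] at this
    exact this

instance : IsScalarTower K (B K) (B K) := ⟨fun r x y => mulOp_smul_left _ _ r x y⟩
instance : SMulCommClass K (B K) (B K) := ⟨fun r x y => (mulOp_smul_right _ _ r x y).symm⟩

theorem opF_comm (i j : Fin 64) : opF i j = opF j i := Fin.ext (Nat.or_comm _ _)
theorem opF_assoc (i j k : Fin 64) : opF (opF i j) k = opF i (opF j k) :=
  Fin.ext (Nat.or_assoc _ _ _)
theorem gam_comm (i j : Fin 64) : gam K i j = gam K j i := by
  unfold gam; rw [c_comm i.2 j.2]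

theorem B_comm (x y : B K) : x * y = y * x := mulOp_comm _ _ opF_comm gam_comm x y

theorem B_isAlt (h3 : (3 : K) = 0) : IsAlt (B K) := by
  have hl : ∀ a b : B K, (a * a) * b = a * (a * b) := by
    intro a b
    refine mulOp_alt opF (gam K) opF_assoc opF_comm ?_ ?_ a b
    · intro a ha
      linear_combination a * h3 - ha
    · intro i j k
      have h := c_alt i.2 j.2 k.2
      obtain ⟨q, hq⟩ := Nat.dvd_of_mod_eq_zero h
      have h1 := congrArg (Nat.cast : ℕ → K) hq
      push_cast at h1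
      show (c i j : K) * (c (i ||| j) k : K) - (c j k : K) * (c i (j ||| k) : K) +
        ((c j i : K) * (c (j ||| i) k : K) - (c i k : K) * (c j (i ||| k) : K)) = 0
      linear_combination h1 + ((q : K) - (c j k : K) * (c i (j ||| k) : K) -
        (c i k : K) * (c j (i ||| k) : K)) * h3
  refine ⟨hl, fun a b => ?_⟩
  rw [B_comm (b * a) a, B_comm b a, ← hl, B_comm (a * a) b]

/-- basis elements with coefficients -/
def e (i : Fin 64) (u : K) : B K := (Pi.single i u : Fin 64 → K)

theorem e_mul (i j : Fin 64) (u v : K) : e i u * e j v = e (opF i j) (gam K i j * (u * v)) :=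
  mulOp_single _ _ i j u v

theorem e_add (i : Fin 64) (u v : K) : e i u + e i v = e i (u + v) :=
  (Pi.single_add (f := fun _ : Fin 64 => K) i u v).symm

theorem e_sub (i : Fin 64) (u v : K) : e i u - e i v = e i (u - v) :=
  (Pi.single_sub (f := fun _ : Fin 64 => K) i u v).symm

theorem e_jo (i j : Fin 64) (u v : K) :
    jo (e i u) (e j v) = e (opF i j) (2 * gam K i j * (u * v)) := by
  unfold jo
  rw [e_mul, e_mul, opF_comm j i, e_add, gam_comm j i]
  congr 1; ring

theorem e_as (i j k : Fin 64) (u v w : K) : as (e i u) (e j v) (e k w) =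
    e (opF (opF i j) k) ((gam K i j * gam K (opF i j) k - gam K j k * gam K i (opF j k)) *
      (u * v * w)) := by
  unfold as
  rw [e_mul, e_mul, e_mul, e_mul, ← opF_assoc, e_sub]
  congr 1; ring

theorem e_zero (i : Fin 64) : (e i 0 : B K) = 0 := Pi.single_zero _

theorem e_as_jo (i j k l m n : Fin 64) : as (jo (e i (1 : K)) (e j 1)) (jo (e k 1) (e l 1))
    (jo (e m 1) (e n 1)) = e (opF (opF (opF i j) (opF k l)) (opF m n))
      (8 * (gam K i j * gam K k l * gam K m n) *
        (gam K (opF i j) (opF k l) * gam K (opF (opF i j) (opF k l)) (opF m n) -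
          gam K (opF k l) (opF m n) * gam K (opF i j) (opF (opF k l) (opF m n)))) := by
  rw [e_jo, e_jo, e_jo, e_as]
  congr 1; ring

theorem tor_B : tor (e 1 (1 : K)) (e 2 1) (e 4 1) (e 8 1) (e 16 1) (e 32 1) = e 63 (32 : K) := by
  unfold tor
  rw [e_as_jo, e_as_jo, e_as_jo, e_as_jo, e_as_jo]
  have g : ∀ i j : Fin 64, gam K i j = ((c i j : ℕ) : K) := fun _ _ => rfl
  simp only [g]
  have o1 : opF (opF (opF 1 8) (opF 2 4)) (opF 16 32) = 63 := by decide
  have o2 : opF (opF (opF 1 32) (opF 2 16)) (opF 4 8) = 63 := by decide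
  have o3 : opF (opF (opF 1 2) (opF 4 16)) (opF 8 32) = 63 := by decide
  have o4 : opF (opF (opF 1 4) (opF 2 32)) (opF 8 16) = 63 := by decide
  have o5 : opF (opF (opF 1 16) (opF 2 8)) (opF 4 32) = 63 := by decide
  rw [o1, o2, o3, o4, o5, e_add, e_sub, e_sub, e_sub]
  congr 1
  have a0 : c ((1 : Fin 64) : ℕ) ((8 : Fin 64) : ℕ) = 1 := by decide +kernel
  have a1 : c ((2 : Fin 64) : ℕ) ((4 : Fin 64) : ℕ) = 1 := by decide +kernel
  have a2 : c ((16 : Fin 64) : ℕ) ((32 : Fin 64) : ℕ) = 1 := by decide +kernel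
  have a3 : c (((opF 1 8) : Fin 64) : ℕ) (((opF 2 4) : Fin 64) : ℕ) = 1 := by decide +kernel
  have a4 : c (((opF (opF 1 8) (opF 2 4)) : Fin 64) : ℕ) (((opF 16 32) : Fin 64) : ℕ) = 2 := by decide +kernel
  have a5 : c (((opF 2 4) : Fin 64) : ℕ) (((opF 16 32) : Fin 64) : ℕ) = 2 := by decide +kernel
  have a6 : c (((opF 1 8) : Fin 64) : ℕ) (((opF (opF 2 4) (opF 16 32)) : Fin 64) : ℕ) = 0 := by decide +kernel
  have a7 : c ((1 : Fin 64) : ℕ) ((32 : Fin 64) : ℕ) = 1 := by decide +kernel
  have a8 : c ((2 : Fin 64) : ℕ) ((16 : Fin 64) : ℕ) = 0 := by decide +kernel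
  have a9 : c ((4 : Fin 64) : ℕ) ((8 : Fin 64) : ℕ) = 1 := by decide +kernel
  have a10 : c (((opF 1 32) : Fin 64) : ℕ) (((opF 2 16) : Fin 64) : ℕ) = 0 := by decide +kernel
  have a11 : c (((opF (opF 1 32) (opF 2 16)) : Fin 64) : ℕ) (((opF 4 8) : Fin 64) : ℕ) = 0 := by decide +kernel
  have a12 : c (((opF 2 16) : Fin 64) : ℕ) (((opF 4 8) : Fin 64) : ℕ) = 0 := by decide +kernel
  have a13 : c (((opF 1 32) : Fin 64) : ℕ) (((opF (opF 2 16) (opF 4 8)) : Fin 64) : ℕ) = 0 := by decide +kernel
  have a14 : c ((1 : Fin 64) : ℕ) ((2 : Fin 64) : ℕ) = 1 := by decide +kernel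
  have a15 : c ((4 : Fin 64) : ℕ) ((16 : Fin 64) : ℕ) = 1 := by decide +kernel
  have a16 : c ((8 : Fin 64) : ℕ) ((32 : Fin 64) : ℕ) = 0 := by decide +kernel
  have a17 : c (((opF 1 2) : Fin 64) : ℕ) (((opF 4 16) : Fin 64) : ℕ) = 0 := by decide +kernel
  have a18 : c (((opF (opF 1 2) (opF 4 16)) : Fin 64) : ℕ) (((opF 8 32) : Fin 64) : ℕ) = 0 := by decide +kernel
  have a19 : c (((opF 4 16) : Fin 64) : ℕ) (((opF 8 32) : Fin 64) : ℕ) = 0 := by decide +kernel
  have a20 : c (((opF 1 2) : Fin 64) : ℕ) (((opF (opF 4 16) (opF 8 32)) : Fin 64) : ℕ) = 1 := by decide +kernel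
  have a21 : c ((1 : Fin 64) : ℕ) ((4 : Fin 64) : ℕ) = 0 := by decide +kernel
  have a22 : c ((2 : Fin 64) : ℕ) ((32 : Fin 64) : ℕ) = 1 := by decide +kernel
  have a23 : c ((8 : Fin 64) : ℕ) ((16 : Fin 64) : ℕ) = 1 := by decide +kernel
  have a24 : c (((opF 1 4) : Fin 64) : ℕ) (((opF 2 32) : Fin 64) : ℕ) = 0 := by decide +kernel
  have a25 : c (((opF (opF 1 4) (opF 2 32)) : Fin 64) : ℕ) (((opF 8 16) : Fin 64) : ℕ) = 1 := by decide +kernel
  have a26 : c (((opF 2 32) : Fin 64) : ℕ) (((opF 8 16) : Fin 64) : ℕ) = 0 := by decide +kernel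
  have a27 : c (((opF 1 4) : Fin 64) : ℕ) (((opF (opF 2 32) (opF 8 16)) : Fin 64) : ℕ) = 0 := by decide +kernel
  have a28 : c ((1 : Fin 64) : ℕ) ((16 : Fin 64) : ℕ) = 1 := by decide +kernel
  have a29 : c ((2 : Fin 64) : ℕ) ((8 : Fin 64) : ℕ) = 1 := by decide +kernel
  have a30 : c ((4 : Fin 64) : ℕ) ((32 : Fin 64) : ℕ) = 1 := by decide +kernel
  have a31 : c (((opF 1 16) : Fin 64) : ℕ) (((opF 2 8) : Fin 64) : ℕ) = 1 := by decide +kernel
  have a32 : c (((opF (opF 1 16) (opF 2 8)) : Fin 64) : ℕ) (((opF 4 32) : Fin 64) : ℕ) = 0 := by decide +kernel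
  have a33 : c (((opF 2 8) : Fin 64) : ℕ) (((opF 4 32) : Fin 64) : ℕ) = 2 := by decide +kernel
  have a34 : c (((opF 1 16) : Fin 64) : ℕ) (((opF (opF 2 8) (opF 4 32)) : Fin 64) : ℕ) = 1 := by decide +kernel
  rw [a0, a1, a2, a3, a4, a5, a6, a7, a8, a9, a10, a11, a12, a13, a14, a15, a16, a17, a18, a19, a20, a21, a22, a23, a24, a25, a26, a27, a28, a29, a30, a31, a32, a33, a34]
  push_cast
  ring

end

end Pool.Agent.K1H3.AltTor
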